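import Pool.Agent.helper38.OP.Spec

set_option autoImplicit false

namespace Pool.Agent.OP

open Finset Real Pool.Agent.AT Pool.Agent.helper85.FC Pool.Agent.OM

theorem CS2_tri {M : Type} [AddCommMonoid M] (I : Finset ℕ) (X : Finset ℤ) (F : ℕ → ℤ → ℤ → M) :
    ∑ m ∈ I, ∑ x ∈ X, ∑ y ∈ X, F m x y = ∑ t ∈ I ×ˢ (X ×ˢ X), F t.1 t.2.1 t.2.2 := by
  rw [Finset.sum_product]
  refine Finset.sum_congr rfl fun m _ => ?_
  rw [Finset.sum_product]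

theorem CS2 (hSHF : OM.SHF_stmt) : CS2_stmt := by
  intro a b L R₀ R Y D hR K hK φ ψ hφ hψ
  have hsh : ∀ m ∈ Ico 1 L, ∀ d ∈ range (D m),
      ∑ x ∈ XX R Y, ∑ y ∈ XX R Y, K m ((b : ℤ) ^ m * x - (a : ℤ) ^ m * y) * gm L (φ m) ψ m x y =
      ∑ x ∈ XX R Y, ∑ y ∈ XX R Y, K m ((b : ℤ) ^ m * x - (a : ℤ) ^ m * y) *
        gm L (φ m) ψ m (x + (a : ℤ) ^ m * d) (y + (b : ℤ) ^ m * d) := by
    intro m hm d hd
    obtain ⟨_, h1, h2⟩ := hR m hm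
    have hd' : d ≤ D m := (Finset.mem_range.1 hd).le
    have hA : (R₀ : ℤ) + |(a : ℤ) ^ m * d| ≤ R := by
      rw [abs_of_nonneg (by positivity)]
      have h3 : R₀ + a ^ m * d ≤ R := le_trans (Nat.add_le_add_left (Nat.mul_le_mul_left _ hd') _) h1
      exact_mod_cast h3
    have hB : (R₀ : ℤ) + |(b : ℤ) ^ m * d| ≤ R := by
      rw [abs_of_nonneg (by positivity)]
      have h3 : R₀ + b ^ m * d ≤ R := le_trans (Nat.add_le_add_left (Nat.mul_le_mul_left _ hd') _) h2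
      exact_mod_cast h3
    have hg1 : ∀ x y, x ∉ XX R₀ Y → gm L (φ m) ψ m x y = 0 := by
      intro x y hx
      unfold gm
      exact Finset.sum_eq_zero fun i _ => by rw [hφ m hm i x hx, zero_mul]
    have hg2 : ∀ x y, y ∉ XX R₀ Y → gm L (φ m) ψ m x y = 0 := by
      intro x y hy
      unfold gm
      exact Finset.sum_eq_zero fun i _ => by rw [hψ (i - m) y hy, mul_zero]
    have e1 := hSHF R₀ R Y ((a : ℤ) ^ m * d) hA
      (fun x => ∑ y ∈ XX R Y, K m ((b : ℤ) ^ m * x - (a : ℤ) ^ m * y) * gm L (φ m) ψ m x y)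
      (fun x hx => Finset.sum_eq_zero fun y _ => by rw [hg1 x y hx, mul_zero])
    rw [← e1]
    refine Finset.sum_congr rfl fun x _ => ?_
    have e2 := hSHF R₀ R Y ((b : ℤ) ^ m * d) hB
      (fun y => K m ((b : ℤ) ^ m * (x + (a : ℤ) ^ m * d) - (a : ℤ) ^ m * y) * gm L (φ m) ψ m (x + (a : ℤ) ^ m * d) y)
      (fun y hy => by rw [hg2 _ y hy, mul_zero])
    rw [← e2]
    refine Finset.sum_congr rfl fun y _ => ?_
    have e3 : (b : ℤ) ^ m * (x + (a : ℤ) ^ m * d) - (a : ℤ) ^ m * (y + (b : ℤ) ^ m * d) =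
        (b : ℤ) ^ m * x - (a : ℤ) ^ m * y := by ring
    rw [e3]
  have hS : ∑ m ∈ Ico 1 L, ∑ x ∈ XX R Y, ∑ y ∈ XX R Y, K m ((b : ℤ) ^ m * x - (a : ℤ) ^ m * y) * gm L (φ m) ψ m x y =
      ∑ m ∈ Ico 1 L, ∑ x ∈ XX R Y, ∑ y ∈ XX R Y, K m ((b : ℤ) ^ m * x - (a : ℤ) ^ m * y) *
        ((∑ d ∈ range (D m), gm L (φ m) ψ m (x + (a : ℤ) ^ m * d) (y + (b : ℤ) ^ m * d)) / D m) := by
    refine Finset.sum_congr rfl fun m hm => ?_
    have hD0 : (0 : ℝ) < D m := by exact_mod_cast (hR m hm).1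
    refine mul_left_cancel₀ hD0.ne' ?_
    have e1 : (D m : ℝ) * ∑ x ∈ XX R Y, ∑ y ∈ XX R Y, K m ((b : ℤ) ^ m * x - (a : ℤ) ^ m * y) * gm L (φ m) ψ m x y =
        ∑ d ∈ range (D m), ∑ x ∈ XX R Y, ∑ y ∈ XX R Y, K m ((b : ℤ) ^ m * x - (a : ℤ) ^ m * y) *
          gm L (φ m) ψ m (x + (a : ℤ) ^ m * d) (y + (b : ℤ) ^ m * d) := by
      rw [← Finset.sum_congr rfl (hsh m hm), Finset.sum_const, Finset.card_range, nsmul_eq_mul]
    rw [e1, Finset.sum_comm, Finset.mul_sum]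
    refine Finset.sum_congr rfl fun x _ => ?_
    rw [Finset.sum_comm, Finset.mul_sum]
    refine Finset.sum_congr rfl fun y _ => ?_
    rw [← Finset.mul_sum]
    field_simp
  rw [hS, CS2_tri, CS2_tri]
  refine le_trans (Finset.sum_mul_sq_le_sq_mul_sq _ _ _) ?_
  refine mul_le_mul_of_nonneg_right ?_ (Finset.sum_nonneg fun _ _ => sq_nonneg _)
  have hcard : (XX R Y).card = Y + 2 * R := by
    unfold XX
    rw [Int.card_Ico]
    omega
  calc ∑ t ∈ Ico 1 L ×ˢ (XX R Y ×ˢ XX R Y), K t.1 ((b : ℤ) ^ t.1 * t.2.1 - (a : ℤ) ^ t.1 * t.2.2) ^ 2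
      ≤ ∑ t ∈ Ico 1 L ×ˢ (XX R Y ×ˢ XX R Y), (1 : ℝ) := by
        refine Finset.sum_le_sum fun t _ => ?_
        rw [sq_le_one_iff_abs_le_one]
        exact hK _ _
    _ = ((Ico 1 L ×ˢ (XX R Y ×ˢ XX R Y)).card : ℝ) := by rw [Finset.sum_const, nsmul_eq_mul, mul_one]
    _ = ((L - 1 : ℕ) : ℝ) * ((Y : ℝ) + 2 * R) ^ 2 := by
        rw [Finset.card_product, Finset.card_product, Nat.card_Ico, hcard]
        push_cast
        ring
    _ ≤ (L : ℝ) * ((Y : ℝ) + 2 * R) ^ 2 := by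
        refine mul_le_mul_of_nonneg_right ?_ (sq_nonneg _)
        exact_mod_cast Nat.sub_le L 1

end Pool.Agent.OP
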